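import Pool.Agent.H57.AHPlane

set_option autoImplicit false

namespace Pool.Agent.Results.MP_43980c_co.CoordinatePlane

open Pool.Agent.H57.AH IsLocalRing

/-! ### the ordinary affine plane over a field -/

/-- Lines of the ordinary affine plane: `inl (m, c)` is `y = m x + c`, `inr c` is `x = c`. -/
abbrev Ln (k : Type) := (k × k) ⊕ k

/-- Incidence in the ordinary affine plane. -/
def Inc' {k : Type} [Field k] : k × k → Ln k → Prop
  | (x, y), Sum.inl (m, c) => y = m * x + c
  | (x, _), Sum.inr c => x = c

lemma affine (k : Type) [Field k] : IsAffinePlane (Inc' (k := k)) where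
  join := by
    rintro ⟨x, y⟩ ⟨u, v⟩ hne
    by_cases hx : x = u
    · subst hx
      refine ⟨Sum.inr x, ⟨rfl, rfl⟩, ?_⟩
      rintro (⟨m, c⟩ | c) ⟨h1, h2⟩
      · simp only [Inc'] at h1 h2
        exact absurd (by rw [h1, h2]) hne
      · simp only [Inc'] at h1
        rw [h1]
    · have hne' : x - u ≠ 0 := sub_ne_zero.mpr hx
      refine ⟨Sum.inl ((y - v) / (x - u), y - (y - v) / (x - u) * x), ⟨?_, ?_⟩, ?_⟩
      · simp only [Inc']; ring
      · simp only [Inc']; field_simp; ring
      · rintro (⟨m, c⟩ | c) ⟨h1, h2⟩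
        · simp only [Inc'] at h1 h2
          have e1 : m = (y - v) / (x - u) := by
            field_simp
            linear_combination h2 - h1
          rw [← e1]
          have e2 : c = y - m * x := by linear_combination -h1
          rw [e2]
        · simp only [Inc'] at h1 h2
          exact absurd (by rw [h1, h2]) hx
  playfair := by
    rintro ⟨x, y⟩ (⟨m, c⟩ | c) hn
    · simp only [Inc'] at hn
      refine ⟨Sum.inl (m, y - m * x), ⟨?_, ?_⟩, ?_⟩
      · simp only [Inc']; ring
      · rintro ⟨u, v⟩ ⟨h1, h2⟩
        simp only [Inc'] at h1 h2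
        apply hn
        linear_combination h1 - h2
      · rintro (⟨m', c'⟩ | c') ⟨h1, h2⟩
        · simp only [Inc'] at h1
          by_cases hm : m' = m
          · subst hm
            have : c' = y - m' * x := by linear_combination -h1
            rw [this]
          · exfalso
            have hne' : m' - m ≠ 0 := sub_ne_zero.mpr hm
            apply h2 ((c - c') / (m' - m), m * ((c - c') / (m' - m)) + c)
            constructor
            · rfl
            · simp only [Inc']
              field_simp
              ring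
        · exfalso
          exact h2 (c', m * c' + c) ⟨rfl, rfl⟩
    · simp only [Inc'] at hn
      refine ⟨Sum.inr x, ⟨rfl, ?_⟩, ?_⟩
      · rintro ⟨u, v⟩ ⟨h1, h2⟩
        simp only [Inc'] at h1 h2
        exact hn (by rw [← h1, ← h2])
      · rintro (⟨m', c'⟩ | c') ⟨h1, h2⟩
        · exfalso
          exact h2 (c, m' * c + c') ⟨rfl, rfl⟩
        · simp only [Inc'] at h1
          rw [h1]
  two_points := by
    rintro (⟨m, c⟩ | c)
    · exact ⟨(0, m * 0 + c), (1, m * 1 + c), by simp, rfl, rfl⟩
    · exact ⟨(c, 0), (c, 1), by simp, rfl, rfl⟩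
  triangle := by
    refine ⟨(0, 0), (1, 0), (0, 1), by simp, by simp, by simp, ?_⟩
    rintro ⟨(⟨m, c⟩ | c), h1, h2, h3⟩
    · simp only [Inc'] at h1 h2 h3
      have : (1 : k) = 0 := by linear_combination h3 - h1
      exact one_ne_zero this
    · simp only [Inc'] at h1 h2
      have : (1 : k) = 0 := by rw [h2, ← h1]
      exact one_ne_zero this

/-! ### the coordinate plane over a local ring -/

variable {R : Type} [CommRing R] [IsLocalRing R]

/-- Blocks of the coordinate plane: `inl (m, c)` is the line `y = m x + c`, `inr (m, c)` with `m` in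
the maximal ideal is the line `x = m y + c`. -/
abbrev Bl (R : Type) [CommRing R] [IsLocalRing R] := (R × R) ⊕ (maximalIdeal R × R)

/-- Incidence in the coordinate plane. -/
def Inc : R × R → Bl R → Prop
  | (x, y), Sum.inl (m, c) => y = m * x + c
  | (x, y), Sum.inr (m, c) => x = (m : R) * y + c

/-- Blocks are parallel if they have the same slope. -/
def Par : Bl R → Bl R → Prop
  | Sum.inl (m, _), Sum.inl (m', _) => m = m'
  | Sum.inr (m, _), Sum.inr (m', _) => m = m'
  | _, _ => False

/-- The conditions on the local ring `R`: every non-unit is a zero divisor, and of any two elements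
one divides the other. -/
structure IsHRing (R : Type) [CommRing R] : Prop where
  zd : ∀ a : R, ¬ IsUnit a → ∃ t : R, t ≠ 0 ∧ t * a = 0
  chain : ∀ a b : R, a ∣ b ∨ b ∣ a

lemma res_zero {a : R} : residue R a = 0 ↔ ¬ IsUnit a := by
  rw [residue_eq_zero_iff, mem_maximalIdeal]
  rfl

lemma mem_m {a : R} : a ∈ maximalIdeal R ↔ ¬ IsUnit a := by
  rw [mem_maximalIdeal]
  rfl

lemma res_m (m : maximalIdeal R) : residue R (m : R) = 0 := (residue_eq_zero_iff _).mpr m.2

lemma many_iff (hR : IsHRing R) (p q : R × R) : ManyBlocks Inc p q ↔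
    residue R p.1 = residue R q.1 ∧ residue R p.2 = residue R q.2 := by
  obtain ⟨x, y⟩ := p
  obtain ⟨u, v⟩ := q
  simp only
  rw [← sub_eq_zero, ← map_sub, ← sub_eq_zero (a := residue R y), ← map_sub]
  constructor
  · rintro ⟨b, b', hbc, ⟨h1, h2⟩, h3, h4⟩
    rcases b with ⟨m, c⟩ | ⟨m, c⟩ <;>
    rcases b' with ⟨m', c'⟩ | ⟨m', c'⟩ <;>
    simp only [Inc] at h1 h2 h3 h4
    · have e0 : (m - m') * (x - u) = 0 := by linear_combination h3 - h1 - h4 + h2
      have hx : residue R (x - u) = 0 := by
        rw [res_zero]
        intro hu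
        have e1 : m = m' := by
          have := (hu.mul_left_eq_zero).mp e0
          exact sub_eq_zero.mp this
        subst e1
        exact hbc (by rw [show c = c' by linear_combination h3 - h1])
      refine ⟨hx, ?_⟩
      rw [show y - v = m * (x - u) by linear_combination h1 - h2, map_mul, hx, mul_zero]
    · have hx : residue R (x - u) = 0 := by
        rw [show x - u = (m' : R) * (y - v) by linear_combination h3 - h4, map_mul, res_m, zero_mul]
      refine ⟨hx, ?_⟩
      rw [show y - v = m * (x - u) by linear_combination h1 - h2, map_mul, hx, mul_zero]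
    · have hx : residue R (x - u) = 0 := by
        rw [show x - u = (m : R) * (y - v) by linear_combination h1 - h2, map_mul, res_m, zero_mul]
      refine ⟨hx, ?_⟩
      rw [show y - v = m' * (x - u) by linear_combination h3 - h4, map_mul, hx, mul_zero]
    · have hx : residue R (x - u) = 0 := by
        rw [show x - u = (m : R) * (y - v) by linear_combination h1 - h2, map_mul, res_m, zero_mul]
      refine ⟨hx, ?_⟩
      rw [res_zero]
      intro hu
      have e0 : ((m : R) - m') * (y - v) = 0 := by linear_combination h3 - h1 - h4 + h2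
      have e1 : m = m' := by
        have := (hu.mul_left_eq_zero).mp e0
        exact Subtype.ext (sub_eq_zero.mp this)
      subst e1
      exact hbc (by rw [show c = c' by linear_combination h3 - h1])
  · rintro ⟨h1, h2⟩
    rw [res_zero] at h1 h2
    by_cases hd : (x - u) ∣ (y - v)
    · obtain ⟨m, hm⟩ := hd
      obtain ⟨t, ht0, ht⟩ := hR.zd _ h1
      refine ⟨Sum.inl (m, y - m * x), Sum.inl (m + t, y - (m + t) * x), ?_, ⟨?_, ?_⟩, ?_, ?_⟩
      · intro h
        simp only [Sum.inl.injEq, Prod.mk.injEq] at h
        exact ht0 (by linear_combination -h.1)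
      · simp only [Inc]; ring
      · simp only [Inc]; linear_combination -hm
      · simp only [Inc]; ring
      · simp only [Inc]; linear_combination -hm + ht
    · have hd' : (y - v) ∣ (x - u) := (hR.chain _ _).resolve_left hd
      obtain ⟨m, hm⟩ := hd'
      obtain ⟨t, ht0, ht⟩ := hR.zd _ h2
      have hmm : ¬ IsUnit m := by
        intro hu
        apply hd
        rw [hm]
        exact (hu.mul_right_dvd).mpr dvd_rfl
      have hb : y - v ≠ 0 := by
        intro h
        apply hd
        rw [h]
        exact dvd_zero _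
      have htm : ¬ IsUnit t := by
        intro hu
        exact hb ((hu.mul_right_eq_zero).mp ht)
      refine ⟨Sum.inr (⟨m, mem_m.mpr hmm⟩, x - m * y),
        Sum.inr (⟨m, mem_m.mpr hmm⟩ + ⟨t, mem_m.mpr htm⟩, x - (m + t) * y), ?_, ⟨?_, ?_⟩, ?_, ?_⟩
      · intro h
        simp only [Sum.inr.injEq, Prod.mk.injEq] at h
        have h3 := congrArg Subtype.val h.1
        simp only [Submodule.coe_add] at h3
        exact ht0 (by linear_combination -h3)
      · simp only [Inc]; ring
      · simp only [Inc]; linear_combination -hm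
      · simp only [Inc, Submodule.coe_add]; ring
      · simp only [Inc, Submodule.coe_add]; linear_combination -hm + ht


/-- The image of a block in the plane over the residue field. -/
noncomputable def g : Bl R → Ln (ResidueField R)
  | Sum.inl (m, c) => Sum.inl (residue R m, residue R c)
  | Sum.inr (_, c) => Sum.inr (residue R c)

/-- The image of a point. -/
noncomputable def f : R × R → ResidueField R × ResidueField R := fun p => (residue R p.1, residue R p.2)

lemma nbr_iff (hR : IsHRing R) (b c : Bl R) : g b = g c ↔ BlockNbr Inc b c := by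
  constructor
  · intro h
    rcases b with ⟨m, c⟩ | ⟨m, c⟩ <;>
    rename_i b' <;>
    rcases b' with ⟨m', c'⟩ | ⟨m', c'⟩ <;>
    simp only [g, Sum.inl.injEq, Sum.inr.injEq, Prod.mk.injEq, reduceCtorEq] at h
    · obtain ⟨h1, h2⟩ := h
      constructor
      · rintro ⟨x, y⟩ h3
        simp only [Inc] at h3
        refine ⟨(x, m' * x + c'), rfl, ?_⟩
        rw [many_iff hR]
        refine ⟨rfl, ?_⟩
        simp only [h3, map_add, map_mul, h1, h2]
      · rintro ⟨x, y⟩ h3
        simp only [Inc] at h3
        refine ⟨(x, m * x + c), rfl, ?_⟩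
        rw [many_iff hR]
        refine ⟨rfl, ?_⟩
        simp only [h3, map_add, map_mul, h1, h2]
    · constructor
      · rintro ⟨x, y⟩ h3
        simp only [Inc] at h3
        refine ⟨((m' : R) * y + c', y), rfl, ?_⟩
        rw [many_iff hR]
        refine ⟨?_, rfl⟩
        simp only [h3, map_add, map_mul, res_m, h, zero_mul]
      · rintro ⟨x, y⟩ h3
        simp only [Inc] at h3
        refine ⟨((m : R) * y + c, y), rfl, ?_⟩
        rw [many_iff hR]
        refine ⟨?_, rfl⟩
        simp only [h3, map_add, map_mul, res_m, h, zero_mul]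
  · rintro ⟨h1, h2⟩
    rcases b with ⟨m, d⟩ | ⟨m, d⟩
    · obtain ⟨⟨u, v⟩, h3, h4⟩ := h1 (0, m * 0 + d) rfl
      obtain ⟨⟨s, t⟩, h5, h6⟩ := h1 (1, m * 1 + d) rfl
      rw [many_iff hR] at h4 h6
      simp only [map_zero, map_one, map_add, mul_zero, mul_one, zero_add] at h4 h6
      rcases c with ⟨m', c'⟩ | ⟨m', c'⟩
      · simp only [Inc] at h3 h5
        rw [h3] at h4
        rw [h5] at h6
        simp only [map_add, map_mul] at h4 h6
        rw [← h4.1, mul_zero, zero_add] at h4
        rw [← h6.1, mul_one] at h6
        have e1 := h4.2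
        have e2 : residue R m = residue R m' := by
          have := h6.2
          rw [e1] at this
          exact add_right_cancel this
        simp only [g, e1, e2]
      · exfalso
        simp only [Inc] at h3 h5
        rw [h3] at h4
        rw [h5] at h6
        simp only [map_add, map_mul, res_m, zero_mul, zero_add] at h4 h6
        exact one_ne_zero (h6.1.trans h4.1.symm)
    · obtain ⟨⟨u, v⟩, h3, h4⟩ := h1 ((m : R) * 0 + d, 0) rfl
      obtain ⟨⟨s, t⟩, h5, h6⟩ := h1 ((m : R) * 1 + d, 1) rfl
      rw [many_iff hR] at h4 h6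
      simp only [map_zero, map_one, map_add, map_mul, res_m, zero_mul, zero_add] at h4 h6
      rcases c with ⟨m', c'⟩ | ⟨m', c'⟩
      · exfalso
        simp only [Inc] at h3 h5
        rw [h3] at h4
        rw [h5] at h6
        simp only [map_add, map_mul] at h4 h6
        rw [← h4.1] at h4
        rw [← h6.1] at h6
        exact one_ne_zero (h6.2.trans h4.2.symm)
      · simp only [Inc] at h3
        rw [h3] at h4
        simp only [map_add, map_mul, res_m, zero_mul, zero_add] at h4
        simp only [g, h4.1]

theorem isAH (hR : IsHRing R) : IsAHPlane (Inc (R := R)) Par where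
  join := by
    rintro ⟨x, y⟩ ⟨u, v⟩
    by_cases hd : (x - u) ∣ (y - v)
    · obtain ⟨m, hm⟩ := hd
      refine ⟨Sum.inl (m, y - m * x), ?_, ?_⟩
      · simp only [Inc]; ring
      · simp only [Inc]; linear_combination -hm
    · obtain ⟨m, hm⟩ := (hR.chain _ _).resolve_left hd
      have hmm : ¬ IsUnit m := by
        intro hu
        apply hd
        rw [hm]
        exact (hu.mul_right_dvd).mpr dvd_rfl
      refine ⟨Sum.inr (⟨m, mem_m.mpr hmm⟩, x - m * y), ?_, ?_⟩
      · simp only [Inc]; ring
      · simp only [Inc]; linear_combination -hm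
  par_equiv := by
    constructor
    · rintro (⟨m, c⟩ | ⟨m, c⟩) <;> rfl
    · rintro (⟨m, c⟩ | ⟨m, c⟩) (⟨m', c'⟩ | ⟨m', c'⟩) h
      · exact Eq.symm h
      · exact h
      · exact h
      · exact Eq.symm h
    · rintro (⟨m, c⟩ | ⟨m, c⟩) (⟨m', c'⟩ | ⟨m', c'⟩) (⟨m'', c''⟩ | ⟨m'', c''⟩) h h'
      · exact Eq.trans h h'
      · exact h'
      · exact h.elim
      · exact h.elim
      · exact h.elim
      · exact h.elim
      · exact h'
      · exact Eq.trans h h'
  par_unique := by
    rintro ⟨x, y⟩ (⟨m, c⟩ | ⟨m, c⟩)
    · refine ⟨Sum.inl (m, y - m * x), ⟨?_, rfl⟩, ?_⟩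
      · simp only [Inc]; ring
      · rintro (⟨m', c'⟩ | ⟨m', c'⟩) ⟨h1, h2⟩
        · simp only [Par] at h2
          subst h2
          simp only [Inc] at h1
          rw [show c' = y - m * x by linear_combination -h1]
        · exact h2.elim
    · refine ⟨Sum.inr (m, x - m * y), ⟨?_, rfl⟩, ?_⟩
      · simp only [Inc]; ring
      · rintro (⟨m', c'⟩ | ⟨m', c'⟩) ⟨h1, h2⟩
        · exact h2.elim
        · simp only [Par] at h2
          subst h2
          simp only [Inc] at h1
          rw [show c' = x - m * y by linear_combination -h1]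
  nbr_meet := by
    intro b c _ hn
    rw [← nbr_iff hR] at hn
    rintro ⟨⟨x, y⟩, ⟨h1, h2⟩, hu⟩
    rcases b with ⟨m, b⟩ | ⟨m, b⟩ <;>
    rcases c with ⟨m', c⟩ | ⟨m', c⟩ <;>
    simp only [g, Sum.inl.injEq, Sum.inr.injEq, Prod.mk.injEq, reduceCtorEq] at hn
    · simp only [Inc] at h1 h2
      have hd : ¬ IsUnit (m - m') := by
        rw [← res_zero, map_sub, hn.1, sub_self]
      obtain ⟨t, ht0, ht⟩ := hR.zd _ hd
      have := hu (x + t, y + m * t) ⟨by simp only [Inc]; linear_combination h1,
        by simp only [Inc]; linear_combination h2 + ht⟩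
      simp only [Prod.mk.injEq] at this
      exact ht0 (by linear_combination this.1)
    · simp only [Inc] at h1 h2
      have hd : ¬ IsUnit ((m : R) - m') := by
        rw [← res_zero, map_sub, res_m, res_m, sub_self]
      obtain ⟨t, ht0, ht⟩ := hR.zd _ hd
      have := hu (x + m * t, y + t) ⟨by simp only [Inc]; linear_combination h1,
        by simp only [Inc]; linear_combination h2 + ht⟩
      simp only [Prod.mk.injEq] at this
      exact ht0 (by linear_combination this.2)
  epi := by
    refine ⟨_, _, Inc' (k := ResidueField R), f, g, affine _, ?_, ?_, ?_, ?_, ?_, nbr_iff hR⟩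
    · rintro ⟨x, y⟩
      obtain ⟨x, rfl⟩ := residue_surjective x
      obtain ⟨y, rfl⟩ := residue_surjective y
      exact ⟨(x, y), rfl⟩
    · rintro (⟨m, c⟩ | c)
      · obtain ⟨m, rfl⟩ := residue_surjective m
        obtain ⟨c, rfl⟩ := residue_surjective c
        exact ⟨Sum.inl (m, c), rfl⟩
      · obtain ⟨c, rfl⟩ := residue_surjective c
        exact ⟨Sum.inr (0, c), rfl⟩
    · rintro ⟨x, y⟩ (⟨m, c⟩ | ⟨m, c⟩) h
      · simp only [Inc] at h
        simp only [f, g, Inc', h, map_add, map_mul]
      · simp only [Inc] at h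
        simp only [f, g, Inc', h, map_add, map_mul, res_m, zero_mul, zero_add]
    · rintro ⟨x, y⟩ (⟨m, c⟩ | c) h
      · obtain ⟨x, rfl⟩ := residue_surjective x
        obtain ⟨m, rfl⟩ := residue_surjective m
        obtain ⟨c, rfl⟩ := residue_surjective c
        simp only [Inc'] at h
        refine ⟨(x, m * x + c), Sum.inl (m, c), ?_, rfl, rfl⟩
        simp only [f, h, map_add, map_mul]
      · obtain ⟨c, rfl⟩ := residue_surjective c
        obtain ⟨y, rfl⟩ := residue_surjective y
        simp only [Inc'] at h
        refine ⟨(c, y), Sum.inr (0, c), ?_, rfl, ?_⟩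
        · simp only [f, h]
        · simp only [Inc, ZeroMemClass.coe_zero]; ring
    · intro p q
      rw [many_iff hR]
      simp only [f, Prod.mk.injEq]

/-- The automorphism `(x, y) ↦ (x + e y + a, y)` where `e ^ 2 = 0`. -/
def shear (e a : R) (he : ¬ IsUnit e) (he2 : e * e = 0) : Aut (Inc (R := R)) where
  pt :=
    { toFun := fun p => (p.1 + e * p.2 + a, p.2)
      invFun := fun p => (p.1 - a - e * p.2, p.2)
      left_inv := by
        rintro ⟨x, y⟩
        simp only [Prod.mk.injEq, and_true]
        ring
      right_inv := by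
        rintro ⟨x, y⟩
        simp only [Prod.mk.injEq, and_true]
        ring }
  bl :=
    { toFun := fun l => match l with
        | Sum.inl (m, c) => Sum.inl (m - m * m * e, (c - m * a) * (1 - m * e))
        | Sum.inr (m, c) => Sum.inr (m + ⟨e, mem_m.mpr he⟩, c + a)
      invFun := fun l => match l with
        | Sum.inl (m, c) => Sum.inl (m + m * m * e, (c + m * a) * (1 + m * e))
        | Sum.inr (m, c) => Sum.inr (m - ⟨e, mem_m.mpr he⟩, c - a)
      left_inv := by
        rintro (⟨m, c⟩ | ⟨m, c⟩)
        · simp only [Sum.inl.injEq, Prod.mk.injEq]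
          constructor
          · linear_combination (-2 * m ^ 3 + m ^ 4 * e) * he2
          · linear_combination c * (-2 * m ^ 2 + m ^ 3 * e) * he2
        · simp only [add_sub_cancel_right]
      right_inv := by
        rintro (⟨m, c⟩ | ⟨m, c⟩)
        · simp only [Sum.inl.injEq, Prod.mk.injEq]
          constructor
          · linear_combination (-2 * m ^ 3 - m ^ 4 * e) * he2
          · linear_combination c * (-2 * m ^ 2 - m ^ 3 * e) * he2
        · simp only [sub_add_cancel] }
  inc := by
    rintro ⟨x, y⟩ (⟨m, c⟩ | ⟨m, c⟩)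
    · simp only [Inc, Equiv.coe_fn_mk]
      constructor
      · intro h
        linear_combination (1 + m * e) * h - (y * m ^ 3 * e + (m * x + c) * m ^ 2) * he2
      · intro h
        linear_combination (1 - m * e) * h + (m ^ 2 * y) * he2
    · simp only [Inc, Equiv.coe_fn_mk, Submodule.coe_add]
      constructor
      · intro h
        linear_combination h
      · intro h
        linear_combination h


lemma exists_sq_zero (hR : IsHRing R) (hf : ¬ IsField R) :
    ∃ e : R, e ≠ 0 ∧ ¬ IsUnit e ∧ e * e = 0 := by
  obtain ⟨a, ha0, ha⟩ : ∃ a : R, a ≠ 0 ∧ ¬ IsUnit a := by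
    by_contra hcon
    push Not at hcon
    apply hf
    exact ⟨⟨0, 1, zero_ne_one⟩, mul_comm, fun {a} ha => (hcon a ha).exists_right_inv⟩
  obtain ⟨t, ht0, ht⟩ := hR.zd a ha
  have htu : ¬ IsUnit t := fun hu => ha0 ((hu.mul_right_eq_zero).mp ht)
  rcases hR.chain a t with ⟨s, hs⟩ | ⟨s, hs⟩
  · refine ⟨t, ht0, htu, ?_⟩
    calc t * t = s * (t * a) := by nth_rewrite 2 [hs]; ring
      _ = 0 := by rw [ht, mul_zero]
  · refine ⟨a, ha0, ha, ?_⟩
    calc a * a = s * (t * a) := by nth_rewrite 1 [hs]; ring
      _ = 0 := by rw [ht, mul_zero]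

/-- For every commutative H-ring `R` that is not a field the coordinate plane over `R`, with blocks
parallel if they have the same slope, is an affine Hjelmslev plane whose translations are not closed
under composition. -/
theorem result : ∀ (R : Type) [CommRing R] [IsLocalRing R], IsHRing R → ¬ IsField R →
    IsAHPlane (Inc (R := R)) Par ∧
      ∃ σ τ : Aut (Inc (R := R)), IsTranslation Par σ ∧ IsTranslation Par τ ∧
        ¬ IsTranslation Par (σ.comp τ) := by
  intro R _ _ hR hf
  refine ⟨isAH hR, ?_⟩
  obtain ⟨e, he0, he, he2⟩ := exists_sq_zero hR hf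
  have h0 : ¬ IsUnit (0 : R) := not_isUnit_zero
  have key : ∀ (e a : R) (he : ¬ IsUnit e) (he2 : e * e = 0), IsUnit a →
      IsTranslation Par (shear e a he he2) := by
    intro e a he he2 ha
    refine ⟨⟨Sum.inl (0, 0), ?_⟩, Or.inr ?_⟩
    · rintro (⟨m, c⟩ | ⟨m, c⟩) h
      · simp only [Par] at h
        subst h
        simp only [shear, Equiv.coe_fn_mk, Sum.inl.injEq, Prod.mk.injEq]
        constructor <;> ring
      · exact h.elim
    · rintro ⟨x, y⟩ h
      simp only [shear, Equiv.coe_fn_mk, Prod.mk.injEq, and_true] at h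
      have h2 : a = e * (-y) := by linear_combination h
      rw [h2] at ha
      exact he (isUnit_of_mul_isUnit_left ha)
  refine ⟨shear e 1 he he2, shear 0 (-1) h0 (by ring), key _ _ _ _ isUnit_one,
    key _ _ _ _ isUnit_one.neg, ?_⟩
  rintro ⟨_, h | h⟩
  · have h1 := h.1 (0, 1)
    simp only [Aut.comp, shear, Equiv.trans_apply, Equiv.coe_fn_mk, Prod.mk.injEq] at h1
    exact he0 (by linear_combination h1.1)
  · apply h (0, 0)
    simp only [Aut.comp, shear, Equiv.trans_apply, Equiv.coe_fn_mk, Prod.mk.injEq, and_true]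
    ring

end Pool.Agent.Results.MP_43980c_co.CoordinatePlane
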