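import Pool.Agent.H57.AHPlane

set_option autoImplicit false

namespace Pool.Agent.Results.MP_43980c_co.TwistedPlane

open Pool.Agent.H57.AH

/-- The field with five elements. -/
abbrev F := ZMod 5

instance fact5 : Fact (Nat.Prime 5) := ⟨by norm_num⟩

/-- Points `(x₀ + ε x₁, y₀ + ε y₁)` as quadruples `(x₀, x₁, y₀, y₁)`. -/
abbrev Pt := F × F × F × F

/-- Blocks: `inl (m₀, m₁, c₀, c₁)` is the line `y = m x + c` with `m = m₀ + ε m₁`, `c = c₀ + ε c₁`;
`inr (m₁, c₀, c₁)` is the line `x = ε m₁ y + c`. -/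
abbrev Bl := (F × F × F × F) ⊕ (F × F × F)

/-- Incidence. -/
def Inc : Pt → Bl → Prop
  | (x₀, x₁, y₀, y₁), Sum.inl (m₀, m₁, c₀, c₁) => y₀ = m₀ * x₀ + c₀ ∧ y₁ = m₀ * x₁ + m₁ * x₀ + c₁
  | (x₀, x₁, y₀, _), Sum.inr (m₁, c₀, c₁) => x₀ = c₀ ∧ x₁ = m₁ * y₀ + c₁

/-- The twist: the identity, except that `2` and `3` are interchanged if `c = 1`. -/
def twist (c : F) : F ≃ F := if c = 1 then Equiv.swap 2 3 else Equiv.refl F

/-- The parallel class of a block. -/
def cls : Bl → (F × F) ⊕ F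
  | Sum.inl (m₀, m₁, c₀, _) => Sum.inl (m₀, if m₀ = 0 then twist c₀ m₁ else m₁)
  | Sum.inr (m₁, _, _) => Sum.inr m₁

/-- Parallelism. -/
def Par (b c : Bl) : Prop := cls b = cls c

lemma many_iff (p q : Pt) : ManyBlocks Inc p q ↔ p.1 = q.1 ∧ p.2.2.1 = q.2.2.1 := by
  obtain ⟨x₀, x₁, y₀, y₁⟩ := p
  obtain ⟨u₀, u₁, v₀, v₁⟩ := q
  simp only
  constructor
  · rintro ⟨b, c, hbc, ⟨h1, h2⟩, h3, h4⟩
    rcases b with ⟨m₀, m₁, c₀, c₁⟩ | ⟨m₁, c₀, c₁⟩ <;>
    rcases c with ⟨m₀', m₁', c₀', c₁'⟩ | ⟨m₁', c₀', c₁'⟩ <;>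
    simp only [Inc] at h1 h2 h3 h4 <;>
    obtain ⟨h1, h1'⟩ := h1 <;>
    obtain ⟨h2, h2'⟩ := h2 <;>
    obtain ⟨h3, h3'⟩ := h3 <;>
    obtain ⟨h4, h4'⟩ := h4
    · by_cases hx : x₀ = u₀
      · subst hx
        exact ⟨rfl, by rw [h1, h2]⟩
      · exfalso
        have hne : x₀ - u₀ ≠ 0 := sub_ne_zero.mpr hx
        have e1 : m₀ = m₀' := by
          have : (m₀ - m₀') * (x₀ - u₀) = 0 := by linear_combination h3 - h1 - h4 + h2
          rcases mul_eq_zero.mp this with h | h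
          · exact sub_eq_zero.mp h
          · exact absurd h hne
        subst e1
        have e2 : c₀ = c₀' := by linear_combination h3 - h1
        subst e2
        have e3 : m₁ = m₁' := by
          have : (m₁ - m₁') * (x₀ - u₀) = 0 := by linear_combination h3' - h1' - h4' + h2'
          rcases mul_eq_zero.mp this with h | h
          · exact sub_eq_zero.mp h
          · exact absurd h hne
        subst e3
        have e4 : c₁ = c₁' := by linear_combination h3' - h1'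
        subst e4
        exact hbc rfl
    · have hx : x₀ = u₀ := by rw [h3, h4]
      subst hx
      exact ⟨rfl, by rw [h1, h2]⟩
    · have hx : x₀ = u₀ := by rw [h1, h2]
      subst hx
      exact ⟨rfl, by rw [h3, h4]⟩
    · have hx : x₀ = u₀ := by rw [h1, h2]
      refine ⟨hx, ?_⟩
      by_contra hy
      have hne : y₀ - v₀ ≠ 0 := sub_ne_zero.mpr hy
      have e1 : m₁ = m₁' := by
        have : (m₁ - m₁') * (y₀ - v₀) = 0 := by linear_combination h3' - h1' - h4' + h2'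
        rcases mul_eq_zero.mp this with h | h
        · exact sub_eq_zero.mp h
        · exact absurd h hne
      subst e1
      have e2 : c₀ = c₀' := by rw [← h1, h3]
      subst e2
      have e4 : c₁ = c₁' := by linear_combination h3' - h1'
      subst e4
      exact hbc rfl
  · rintro ⟨rfl, rfl⟩
    by_cases ha : x₁ = u₁
    · subst ha
      refine ⟨Sum.inr (0, x₀, x₁), Sum.inr (1, x₀, x₁ - y₀), by simp, ?_, ?_⟩
      · simp [Inc]
      · simp [Inc]
    · have hne : x₁ - u₁ ≠ 0 := sub_ne_zero.mpr ha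
      refine ⟨Sum.inl ((y₁ - v₁) / (x₁ - u₁), 0, y₀ - (y₁ - v₁) / (x₁ - u₁) * x₀,
          y₁ - (y₁ - v₁) / (x₁ - u₁) * x₁),
        Sum.inl ((y₁ - v₁) / (x₁ - u₁), 1, y₀ - (y₁ - v₁) / (x₁ - u₁) * x₀,
          y₁ - (y₁ - v₁) / (x₁ - u₁) * x₁ - x₀), by simp, ?_, ?_⟩
      · simp only [Inc]
        refine ⟨⟨by ring, by ring⟩, by ring, ?_⟩
        field_simp
        ring
      · simp only [Inc]
        refine ⟨⟨by ring, by ring⟩, by ring, ?_⟩
        field_simp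
        ring

/-! ### the ordinary affine plane over `F` -/

/-- Lines of the ordinary affine plane: `inl (m, c)` is `y = m x + c`, `inr c` is `x = c`. -/
abbrev Ln := (F × F) ⊕ F

/-- Incidence in the ordinary affine plane. -/
def Inc' : F × F → Ln → Prop
  | (x, y), Sum.inl (m, c) => y = m * x + c
  | (x, _), Sum.inr c => x = c

lemma affine : IsAffinePlane Inc' where
  join := by
    rintro ⟨x, y⟩ ⟨u, v⟩ hne
    by_cases hx : x = u
    · subst hx
      refine ⟨Sum.inr x, ⟨rfl, rfl⟩, ?_⟩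
      rintro (⟨m, c⟩ | c) ⟨h1, h2⟩
      · simp only [Inc'] at h1 h2
        exact absurd (by rw [h1, h2]) hne
      · simp only [Inc'] at h1
        rw [h1]
    · have hne' : x - u ≠ 0 := sub_ne_zero.mpr hx
      refine ⟨Sum.inl ((y - v) / (x - u), y - (y - v) / (x - u) * x), ⟨?_, ?_⟩, ?_⟩
      · simp only [Inc']; ring
      · simp only [Inc']; field_simp; ring
      · rintro (⟨m, c⟩ | c) ⟨h1, h2⟩
        · simp only [Inc'] at h1 h2
          have e1 : m = (y - v) / (x - u) := by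
            field_simp
            linear_combination h2 - h1
          rw [← e1]
          have e2 : c = y - m * x := by linear_combination -h1
          rw [e2]
        · simp only [Inc'] at h1 h2
          exact absurd (by rw [h1, h2]) hx
  playfair := by
    rintro ⟨x, y⟩ (⟨m, c⟩ | c) hn
    · simp only [Inc'] at hn
      refine ⟨Sum.inl (m, y - m * x), ⟨?_, ?_⟩, ?_⟩
      · simp only [Inc']; ring
      · rintro ⟨u, v⟩ ⟨h1, h2⟩
        simp only [Inc'] at h1 h2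
        apply hn
        linear_combination h1 - h2
      · rintro (⟨m', c'⟩ | c') ⟨h1, h2⟩
        · simp only [Inc'] at h1
          by_cases hm : m' = m
          · subst hm
            have : c' = y - m' * x := by linear_combination -h1
            rw [this]
          · exfalso
            have hne' : m' - m ≠ 0 := sub_ne_zero.mpr hm
            apply h2 ((c - c') / (m' - m), m * ((c - c') / (m' - m)) + c)
            constructor
            · rfl
            · simp only [Inc']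
              field_simp
              ring
        · exfalso
          exact h2 (c', m * c' + c) ⟨rfl, rfl⟩
    · simp only [Inc'] at hn
      refine ⟨Sum.inr x, ⟨rfl, ?_⟩, ?_⟩
      · rintro ⟨u, v⟩ ⟨h1, h2⟩
        simp only [Inc'] at h1 h2
        exact hn (by rw [← h1, ← h2])
      · rintro (⟨m', c'⟩ | c') ⟨h1, h2⟩
        · exfalso
          exact h2 (c, m' * c + c') ⟨rfl, rfl⟩
        · simp only [Inc'] at h1
          rw [h1]
  two_points := by
    rintro (⟨m, c⟩ | c)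
    · exact ⟨(0, m * 0 + c), (1, m * 1 + c), by simp, rfl, rfl⟩
    · exact ⟨(c, 0), (c, 1), by simp, rfl, rfl⟩
  triangle := by
    refine ⟨(0, 0), (1, 0), (0, 1), by simp, by simp, by simp, ?_⟩
    rintro ⟨(⟨m, c⟩ | c), h1, h2, h3⟩
    · simp only [Inc'] at h1 h2 h3
      have : (1 : F) = 0 := by linear_combination h3 - h1
      exact one_ne_zero this
    · simp only [Inc'] at h1 h2
      have : (1 : F) = 0 := by rw [h2, ← h1]
      exact one_ne_zero this

/-- The image of a block. -/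
def g : Bl → Ln
  | Sum.inl (m₀, _, c₀, _) => Sum.inl (m₀, c₀)
  | Sum.inr (_, c₀, _) => Sum.inr c₀

/-- The image of a point. -/
def f : Pt → F × F := fun p => (p.1, p.2.2.1)

lemma nbr_iff (b c : Bl) : g b = g c ↔ BlockNbr Inc b c := by
  constructor
  · intro h
    rcases b with ⟨m₀, m₁, c₀, c₁⟩ | ⟨m₁, c₀, c₁⟩ <;>
    rcases c with ⟨m₀', m₁', c₀', c₁'⟩ | ⟨m₁', c₀', c₁'⟩ <;>
    simp only [g, Sum.inl.injEq, Sum.inr.injEq, Prod.mk.injEq, reduceCtorEq] at h
    · obtain ⟨rfl, rfl⟩ := h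
      constructor
      · rintro ⟨x₀, x₁, y₀, y₁⟩ h1
        refine ⟨(x₀, x₁, y₀, m₀ * x₁ + m₁' * x₀ + c₁'), ⟨h1.1, rfl⟩, ?_⟩
        rw [many_iff]; exact ⟨rfl, rfl⟩
      · rintro ⟨x₀, x₁, y₀, y₁⟩ h1
        refine ⟨(x₀, x₁, y₀, m₀ * x₁ + m₁ * x₀ + c₁), ⟨h1.1, rfl⟩, ?_⟩
        rw [many_iff]; exact ⟨rfl, rfl⟩
    · subst h
      constructor
      · rintro ⟨x₀, x₁, y₀, y₁⟩ h1
        refine ⟨(x₀, m₁' * y₀ + c₁', y₀, y₁), ⟨h1.1, rfl⟩, ?_⟩
        rw [many_iff]; exact ⟨rfl, rfl⟩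
      · rintro ⟨x₀, x₁, y₀, y₁⟩ h1
        refine ⟨(x₀, m₁ * y₀ + c₁, y₀, y₁), ⟨h1.1, rfl⟩, ?_⟩
        rw [many_iff]; exact ⟨rfl, rfl⟩
  · rintro ⟨h1, h2⟩
    rcases b with ⟨m₀, m₁, c₀, c₁⟩ | ⟨m₁, c₀, c₁⟩
    · obtain ⟨⟨u₀, u₁, v₀, v₁⟩, h3, h4⟩ := h1 (0, 0, m₀ * 0 + c₀, m₀ * 0 + m₁ * 0 + c₁) ⟨rfl, rfl⟩
      obtain ⟨⟨s₀, s₁, t₀, t₁⟩, h5, h6⟩ := h1 (1, 0, m₀ * 1 + c₀, m₀ * 0 + m₁ * 1 + c₁) ⟨rfl, rfl⟩
      rw [many_iff] at h4 h6
      simp only at h4 h6
      obtain ⟨rfl, rfl⟩ := h4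
      obtain ⟨rfl, rfl⟩ := h6
      rcases c with ⟨m₀', m₁', c₀', c₁'⟩ | ⟨m₁', c₀', c₁'⟩
      · simp only [Inc] at h3 h5
        have e1 : c₀ = c₀' := by linear_combination h3.1
        subst e1
        have e2 : m₀ = m₀' := by linear_combination h5.1
        subst e2
        rfl
      · simp only [Inc] at h3 h5
        have : (1 : F) = 0 := by rw [h5.1, ← h3.1]
        exact absurd this one_ne_zero
    · obtain ⟨⟨u₀, u₁, v₀, v₁⟩, h3, h4⟩ := h1 (c₀, m₁ * 0 + c₁, 0, 0) ⟨rfl, rfl⟩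
      obtain ⟨⟨s₀, s₁, t₀, t₁⟩, h5, h6⟩ := h1 (c₀, m₁ * 1 + c₁, 1, 0) ⟨rfl, rfl⟩
      rw [many_iff] at h4 h6
      simp only at h4 h6
      obtain ⟨rfl, rfl⟩ := h4
      obtain ⟨rfl, rfl⟩ := h6
      rcases c with ⟨m₀', m₁', c₀', c₁'⟩ | ⟨m₁', c₀', c₁'⟩
      · simp only [Inc] at h3 h5
        have : (1 : F) = 0 := by rw [h5.1, ← h3.1]
        exact absurd this one_ne_zero
      · simp only [Inc] at h3
        rw [h3.1]
        rfl

lemma par_ex (p : Pt) (b : Bl) : ∃! c : Bl, Inc p c ∧ Par b c := by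
  obtain ⟨x₀, x₁, y₀, y₁⟩ := p
  unfold Par
  rcases h : cls b with ⟨m₀, k⟩ | m₁
  · set c₀ : F := y₀ - m₀ * x₀ with hc₀
    set m₁ : F := if m₀ = 0 then (twist c₀).symm k else k with hm₁
    refine ⟨Sum.inl (m₀, m₁, c₀, y₁ - m₀ * x₁ - m₁ * x₀), ⟨⟨by rw [hc₀]; ring, by ring⟩, ?_⟩, ?_⟩
    · simp only [cls, Sum.inl.injEq, Prod.mk.injEq, true_and]
      rw [hm₁]
      split_ifs with h0
      · simp
      · rfl
    · rintro (⟨a₀, a₁, d₀, d₁⟩ | ⟨a₁, d₀, d₁⟩) ⟨h1, h2⟩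
      · simp only [cls, Sum.inl.injEq, Prod.mk.injEq] at h2
        obtain ⟨rfl, h2⟩ := h2
        simp only [Inc] at h1
        obtain ⟨h1, h1'⟩ := h1
        have e1 : d₀ = c₀ := by rw [hc₀]; linear_combination -h1
        subst e1
        have e2 : a₁ = m₁ := by
          rw [hm₁]
          split_ifs with h0
          · rw [if_pos h0] at h2
            rw [h2]; simp
          · rw [if_neg h0] at h2
            exact h2.symm
        rw [e2] at h1'
        rw [e2]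
        have e3 : d₁ = y₁ - m₀ * x₁ - m₁ * x₀ := by linear_combination -h1'
        rw [e3]
      · simp only [cls, reduceCtorEq] at h2
  · refine ⟨Sum.inr (m₁, x₀, x₁ - m₁ * y₀), ⟨⟨rfl, by ring⟩, rfl⟩, ?_⟩
    rintro (⟨a₀, a₁, d₀, d₁⟩ | ⟨a₁, d₀, d₁⟩) ⟨h1, h2⟩
    · simp only [cls, reduceCtorEq] at h2
    · simp only [cls, Sum.inr.injEq] at h2
      subst h2
      simp only [Inc] at h1
      obtain ⟨rfl, h1'⟩ := h1
      have e3 : d₁ = x₁ - m₁ * y₀ := by linear_combination -h1'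
      rw [e3]

theorem isAH : IsAHPlane Inc Par where
  join := by
    rintro ⟨x₀, x₁, y₀, y₁⟩ ⟨u₀, u₁, v₀, v₁⟩
    by_cases hx : x₀ = u₀
    · by_cases hy : y₀ = v₀
      · have : ManyBlocks Inc (x₀, x₁, y₀, y₁) (u₀, u₁, v₀, v₁) := by
          rw [many_iff]; exact ⟨hx, hy⟩
        obtain ⟨b, _, _, h, _⟩ := this
        exact ⟨b, h⟩
      · subst hx
        have hne : y₀ - v₀ ≠ 0 := sub_ne_zero.mpr hy
        refine ⟨Sum.inr ((x₁ - u₁) / (y₀ - v₀), x₀, x₁ - (x₁ - u₁) / (y₀ - v₀) * y₀),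
          ⟨rfl, by ring⟩, rfl, ?_⟩
        field_simp
        ring
    · have hne : x₀ - u₀ ≠ 0 := sub_ne_zero.mpr hx
      set m₀ := (y₀ - v₀) / (x₀ - u₀) with hm₀
      set m₁ := (y₁ - v₁ - m₀ * (x₁ - u₁)) / (x₀ - u₀) with hm₁
      have k0 : m₀ * (x₀ - u₀) = y₀ - v₀ := by rw [hm₀]; field_simp
      have k1 : m₁ * (x₀ - u₀) = y₁ - v₁ - m₀ * (x₁ - u₁) := by rw [hm₁]; field_simp
      refine ⟨Sum.inl (m₀, m₁, y₀ - m₀ * x₀, y₁ - m₀ * x₁ - m₁ * x₀),
        ⟨by ring, by ring⟩, ?_, ?_⟩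
      · linear_combination k0
      · linear_combination k1
  par_equiv := ⟨fun _ => rfl, fun h => Eq.symm h, fun h h' => Eq.trans h h'⟩
  par_unique := par_ex
  nbr_meet := by
    intro b c _ hn
    rw [← nbr_iff] at hn
    rintro ⟨⟨x₀, x₁, y₀, y₁⟩, ⟨h1, h2⟩, hu⟩
    rcases b with ⟨m₀, m₁, c₀, c₁⟩ | ⟨m₁, c₀, c₁⟩ <;>
    rcases c with ⟨m₀', m₁', c₀', c₁'⟩ | ⟨m₁', c₀', c₁'⟩ <;>
    simp only [g, Sum.inl.injEq, Sum.inr.injEq, Prod.mk.injEq, reduceCtorEq] at hn
    · obtain ⟨rfl, rfl⟩ := hn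
      simp only [Inc] at h1 h2
      have := hu (x₀, x₁ + 1, y₀, y₁ + m₀) ⟨⟨h1.1, by linear_combination h1.2⟩,
        ⟨h2.1, by linear_combination h2.2⟩⟩
      simp only [Prod.mk.injEq] at this
      have h3 : (1 : F) = 0 := by linear_combination this.2.1
      exact one_ne_zero h3
    · subst hn
      simp only [Inc] at h1 h2
      have := hu (x₀, x₁, y₀, y₁ + 1) ⟨h1, h2⟩
      simp only [Prod.mk.injEq] at this
      have h3 : (1 : F) = 0 := by linear_combination this.2.2.2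
      exact one_ne_zero h3
  epi := by
    refine ⟨F × F, Ln, Inc', f, g, affine, ?_, ?_, ?_, ?_, ?_, nbr_iff⟩
    · rintro ⟨x, y⟩
      exact ⟨(x, 0, y, 0), rfl⟩
    · rintro (⟨m, c⟩ | c)
      · exact ⟨Sum.inl (m, 0, c, 0), rfl⟩
      · exact ⟨Sum.inr (0, c, 0), rfl⟩
    · rintro ⟨x₀, x₁, y₀, y₁⟩ (⟨m₀, m₁, c₀, c₁⟩ | ⟨m₁, c₀, c₁⟩) h
      · exact h.1
      · exact h.1
    · rintro ⟨x, y⟩ (⟨m, c⟩ | c) h
      · exact ⟨(x, 0, y, m * 0 + 0 * x + 0), Sum.inl (m, 0, c, 0), rfl, rfl, h, rfl⟩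
      · exact ⟨(x, 0 * y + 0, y, 0), Sum.inr (0, c, 0), rfl, rfl, h, rfl⟩
    · intro p q
      rw [many_iff]
      simp [f]

/-- The map `(x, y) ↦ (x + a, y + ε b)`. -/
def tr (a b : F) : Aut Inc where
  pt :=
    { toFun := fun p => (p.1 + a, p.2.1, p.2.2.1, p.2.2.2 + b)
      invFun := fun p => (p.1 - a, p.2.1, p.2.2.1, p.2.2.2 - b)
      left_inv := by rintro ⟨x₀, x₁, y₀, y₁⟩; simp
      right_inv := by rintro ⟨x₀, x₁, y₀, y₁⟩; simp }
  bl :=
    { toFun := fun l => match l with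
        | Sum.inl (m₀, m₁, c₀, c₁) => Sum.inl (m₀, m₁, c₀ - m₀ * a, c₁ - m₁ * a + b)
        | Sum.inr (m₁, c₀, c₁) => Sum.inr (m₁, c₀ + a, c₁)
      invFun := fun l => match l with
        | Sum.inl (m₀, m₁, c₀, c₁) => Sum.inl (m₀, m₁, c₀ + m₀ * a, c₁ + m₁ * a - b)
        | Sum.inr (m₁, c₀, c₁) => Sum.inr (m₁, c₀ - a, c₁)
      left_inv := by
        rintro (⟨m₀, m₁, c₀, c₁⟩ | ⟨m₁, c₀, c₁⟩)
        · simp
          ring
        · simp
      right_inv := by
        rintro (⟨m₀, m₁, c₀, c₁⟩ | ⟨m₁, c₀, c₁⟩)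
        · simp
          ring
        · simp }
  inc := by
    rintro ⟨x₀, x₁, y₀, y₁⟩ (⟨m₀, m₁, c₀, c₁⟩ | ⟨m₁, c₀, c₁⟩)
    · simp only [Inc, Equiv.coe_fn_mk]
      constructor
      · rintro ⟨h1, h2⟩
        exact ⟨by linear_combination h1, by linear_combination h2⟩
      · rintro ⟨h1, h2⟩
        exact ⟨by linear_combination h1, by linear_combination h2⟩
    · simp only [Inc, Equiv.coe_fn_mk]
      constructor
      · rintro ⟨h1, h2⟩
        exact ⟨by linear_combination h1, h2⟩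
      · rintro ⟨h1, h2⟩
        exact ⟨by linear_combination h1, h2⟩

lemma tr_dil (a b : F) : IsDilatation Par (tr a b) := by
  rintro (⟨m₀, m₁, c₀, c₁⟩ | ⟨m₁, c₀, c₁⟩)
  · simp only [Par, cls, tr, Equiv.coe_fn_mk, Sum.inl.injEq, Prod.mk.injEq, true_and]
    split_ifs with h
    · subst h; simp
    · rfl
  · rfl

lemma tr_noFix {a b : F} (ha : a ≠ 0) (p : Pt) : (tr a b).pt p ≠ p := by
  obtain ⟨x₀, x₁, y₀, y₁⟩ := p
  intro h
  simp only [tr, Equiv.coe_fn_mk, Prod.mk.injEq] at h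
  apply ha
  linear_combination h.1

lemma tr10 : IsTranslation Par (tr 1 0) := by
  refine ⟨⟨Sum.inl (0, 0, 0, 0), ?_⟩, Or.inr (tr_noFix one_ne_zero)⟩
  rintro (⟨m₀, m₁, c₀, c₁⟩ | ⟨m₁, c₀, c₁⟩) h
  · simp only [Par, cls, Sum.inl.injEq, Prod.mk.injEq] at h
    obtain ⟨rfl, h⟩ := h
    simp only [if_true] at h
    have h2 : m₁ = 0 := by
      revert h
      unfold twist
      revert c₀ m₁
      decide
    subst h2
    simp [tr]
  · simp only [Par, cls, reduceCtorEq] at h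

lemma tr11 : IsTranslation Par (tr 1 1) := by
  refine ⟨⟨Sum.inl (0, 1, 0, 0), ?_⟩, Or.inr (tr_noFix one_ne_zero)⟩
  rintro (⟨m₀, m₁, c₀, c₁⟩ | ⟨m₁, c₀, c₁⟩) h
  · simp only [Par, cls, Sum.inl.injEq, Prod.mk.injEq] at h
    obtain ⟨rfl, h⟩ := h
    simp only [if_true] at h
    have h2 : m₁ = 1 := by
      revert h
      unfold twist
      revert c₀ m₁
      decide
    subst h2
    simp [tr]
  · simp only [Par, cls, reduceCtorEq] at h

lemma not_tr : ¬ IsTranslation Par ((tr 1 0).comp (tr 1 1)) := by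
  rintro ⟨⟨b₀, hb⟩, _⟩
  rcases h : cls b₀ with ⟨m₀, k⟩ | m₁
  · by_cases h0 : m₀ = 0
    · subst h0
      have key : ∀ c₀ m₁ : F, twist c₀ m₁ = k → m₁ = 3 := by
        intro c₀ m₁ h1
        have h2 := hb (Sum.inl (0, m₁, c₀, 0)) (by unfold Par; rw [h]; simp [cls, h1])
        simp only [Aut.comp, tr, Equiv.trans_apply, Equiv.coe_fn_mk, Sum.inl.injEq,
          Prod.mk.injEq] at h2
        have h3 : 2 * m₁ = 1 := by linear_combination -h2.2.2.2
        have h4 : ∀ t : F, 2 * t = 1 → t = 3 := by decide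
        exact h4 m₁ h3
      have k1 := key 0 ((twist 0).symm k) (by simp)
      have k2 := key 1 ((twist 1).symm k) (by simp)
      rw [Equiv.symm_apply_eq] at k1 k2
      rw [k1] at k2
      revert k2
      unfold twist
      decide
    · have h2 := hb (Sum.inl (m₀, k, 0, 0)) (by unfold Par; rw [h]; simp [cls, h0])
      simp only [Aut.comp, tr, Equiv.trans_apply, Equiv.coe_fn_mk, Sum.inl.injEq,
          Prod.mk.injEq] at h2
      have h3 : (2 : F) * m₀ = 0 := by linear_combination -h2.2.2.1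
      rcases mul_eq_zero.mp h3 with h4 | h4
      · revert h4; decide
      · exact h0 h4
  · have h2 := hb (Sum.inr (m₁, 0, 0)) (by unfold Par; rw [h]; simp [cls])
    simp only [Aut.comp, tr, Equiv.trans_apply, Equiv.coe_fn_mk, Sum.inr.injEq,
          Prod.mk.injEq] at h2
    have h3 : (2 : F) = 0 := by linear_combination h2.2.1
    revert h3; decide

/-- There is a finite affine Hjelmslev plane with two translations, both of which map every block to
a parallel block, whose composite is not a translation. -/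
theorem result : ∃ (P B : Type) (I : P → B → Prop) (par : B → B → Prop),
    Finite P ∧ Finite B ∧ IsAHPlane I par ∧
      ∃ σ τ : Aut I, (IsTranslation par σ ∧ IsDilatation par σ) ∧
        (IsTranslation par τ ∧ IsDilatation par τ) ∧ ¬ IsTranslation par (σ.comp τ) :=
  ⟨Pt, Bl, Inc, Par, inferInstance, inferInstance, isAH, tr 1 0, tr 1 1,
    ⟨tr10, tr_dil 1 0⟩, ⟨tr11, tr_dil 1 1⟩, not_tr⟩

end Pool.Agent.Results.MP_43980c_co.TwistedPlane
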